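import Pool.Agent.Run7.h630.QC.Iface

/-!
# Project QC (helper630), piece Q5a: the twisted Laplacian is invertible
-/

set_option autoImplicit false

open Matrix
open scoped Matrix.Norms.Frobenius ComplexConjugate

namespace Run7.h270.QC

open Run7.h4.YM Run7.h630.MQ Run7.h630.QC Finset

variable {N n L l : ℕ}

lemma om_norm (N k : ℕ) : ‖om N k‖ = 1 := by
  unfold om
  have : (2 * Real.pi * Complex.I * (k / N) : ℂ) = ((2 * Real.pi * (k / N) : ℝ) : ℂ) * Complex.I := by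
    push_cast; ring
  rw [this, Complex.norm_exp_ofReal_mul_I]

lemma rh_norm (k : ℕ) (α : Col N) (x : Site n L l) (j : Fin 4) : ‖rh k α x j‖ = 1 := by
  unfold rh
  split_ifs
  · rw [norm_pow, RCLike.norm_conj, om_norm, one_pow]
  · rw [norm_pow, om_norm, one_pow]
  · exact norm_one

/-- `nbs` is the adjoint of `nb` -/
lemma adj [NeZero n] [NeZero L] [NeZero l] (k : ℕ) (α : Col N) (j : Fin 4) (f g : Site n L l → ℂ) :
    ∑ x, conj (f x) * nbs k α j g x = ∑ x, conj (nb k α j f x) * g x := by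
  have h1 : ∑ x, conj (f x) * nbs k α j g x =
      ∑ x, conj (f x) * (conj (rh k α (x - dir j) j) * g (x - dir j)) - ∑ x, conj (f x) * g x := by
    rw [← sum_sub_distrib]
    exact sum_congr rfl fun x _ => by unfold nbs; ring
  have h2 : ∑ x, conj (nb k α j f x) * g x =
      ∑ x, conj (f (x + dir j)) * (conj (rh k α x j) * g x) - ∑ x, conj (f x) * g x := by
    rw [← sum_sub_distrib]
    exact sum_congr rfl fun x _ => by unfold nb; rw [map_sub, map_mul]; ring
  rw [h1, h2]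
  congr 1
  rw [← Equiv.sum_comp (Equiv.addRight (dir j : Site n L l))]
  refine sum_congr rfl fun x _ => ?_
  rw [Equiv.coe_addRight, add_sub_cancel_right]

/-- the energy identity -/
lemma energy [NeZero n] [NeZero L] [NeZero l] (k : ℕ) (α : Col N) (h : Site n L l → ℂ) :
    ∑ x, conj (h x) * La n L l k α h x = ((∑ j : Fin 4, ∑ x, ‖nb k α j h x‖ ^ 2 : ℝ) : ℂ) := by
  have h1 : ∀ x, conj (h x) * La n L l k α h x = ∑ j : Fin 4, conj (h x) * nbs k α j (nb k α j h) x := by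
    intro x
    rw [← mul_sum]
    rfl
  rw [sum_congr rfl fun x _ => h1 x, sum_comm]
  push_cast
  refine sum_congr rfl fun j _ => ?_
  rw [adj]
  refine sum_congr rfl fun x _ => ?_
  rw [← Complex.normSq_eq_conj_mul_self, Complex.normSq_eq_norm_sq]
  push_cast
  rfl

lemma pow_sub_one (ζ : ℂ) (hζ : ‖ζ‖ = 1) (j : ℕ) : ‖ζ ^ j - 1‖ ≤ j * ‖ζ - 1‖ := by
  induction j with
  | zero => simp
  | succ j ih =>
    have e : ζ ^ (j + 1) - 1 = ζ ^ j * (ζ - 1) + (ζ ^ j - 1) := by ring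
    rw [e]
    refine (norm_add_le _ _).trans ?_
    rw [norm_mul, norm_pow, hζ, one_pow, one_mul]
    push_cast
    linarith

/-- a nontrivial root of unity is away from one -/
lemma root_away (N : ℕ) [NeZero N] (ζ : ℂ) (h1 : ζ ^ N = 1) (h2 : ζ ≠ 1) : 1 ≤ N * ‖ζ - 1‖ := by
  have hN : (0 : ℝ) < N := by exact_mod_cast Nat.pos_of_neZero N
  have hζ : ‖ζ‖ = 1 := Complex.norm_eq_one_of_pow_eq_one h1 (NeZero.ne N)
  have h3 : ∑ j ∈ range N, ζ ^ j = 0 := by
    have h4 := geom_sum_mul ζ N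
    rw [h1, sub_self] at h4
    rcases mul_eq_zero.1 h4 with h | h
    · exact h
    · exact absurd (sub_eq_zero.1 h) h2
  have h5 : ((N : ℝ) : ℂ) = -∑ j ∈ range N, (ζ ^ j - 1) := by
    rw [sum_sub_distrib, h3, sum_const, card_range, nsmul_eq_mul, mul_one]
    push_cast
    ring
  have h6 : (N : ℝ) ≤ ∑ j ∈ range N, (N : ℝ) * ‖ζ - 1‖ := by
    calc (N : ℝ) = ‖((N : ℝ) : ℂ)‖ := by rw [Complex.norm_real, Real.norm_of_nonneg hN.le]
      _ = ‖∑ j ∈ range N, (ζ ^ j - 1)‖ := by rw [h5, norm_neg]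
      _ ≤ ∑ j ∈ range N, ‖ζ ^ j - 1‖ := norm_sum_le _ _
      _ ≤ ∑ j ∈ range N, (N : ℝ) * ‖ζ - 1‖ := by
          refine sum_le_sum fun j hj => (pow_sub_one ζ hζ j).trans ?_
          apply mul_le_mul_of_nonneg_right _ (norm_nonneg _)
          exact_mod_cast (mem_range.1 hj).le
  rw [sum_const, card_range, nsmul_eq_mul] at h6
  by_contra h7
  push Not at h7
  nlinarith

/-- transport along a direction -/
lemma transport (k : ℕ) (α : Col N) (j : Fin 4) (h : Site n L l → ℂ) (x : Site n L l) (t : ℕ) :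
    ‖(∏ s ∈ range t, rh k α (x + s • dir j) j) * h (x + t • dir j) - h x‖ ≤
      ∑ s ∈ range t, ‖nb k α j h (x + s • dir j)‖ := by
  induction t with
  | zero => simp
  | succ t ih =>
    rw [prod_range_succ, sum_range_succ]
    have e : (∏ s ∈ range t, rh k α (x + s • dir j) j) * rh k α (x + t • dir j) j * h (x + (t + 1) • dir j) - h x =
        (∏ s ∈ range t, rh k α (x + s • dir j) j) * nb k α j h (x + t • dir j) +
          ((∏ s ∈ range t, rh k α (x + s • dir j) j) * h (x + t • dir j) - h x) := by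
      unfold nb
      rw [add_smul, one_smul, ← add_assoc]
      ring
    rw [e]
    refine (norm_add_le _ _).trans ?_
    rw [norm_mul, norm_prod, prod_congr rfl fun s _ => rh_norm k α _ j, prod_const_one, one_mul]
    linarith

/-- a product with exactly one nontrivial factor -/
lemma one_factor [NeZero l] (y : ZMod l) (c : ℂ) :
    ∏ s ∈ range l, (if y + (s : ZMod l) = 0 then c else 1) = c := by
  rw [prod_eq_single ((-y).val)]
  · rw [if_pos]
    rw [ZMod.natCast_zmod_val, add_neg_cancel]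
  · intro s hs hne
    rw [if_neg]
    intro h
    apply hne
    have h1 : (s : ZMod l) = -y := by
      rw [eq_neg_iff_add_eq_zero, add_comm]
      exact h
    rw [← h1, ZMod.val_natCast_of_lt (mem_range.1 hs)]
  · intro h
    exact absurd (mem_range.2 (ZMod.val_lt _)) h

lemma smul_dir2 (s : ℕ) (x : Site n L l) : x + s • dir 2 = (x.1, x.2.1, x.2.2.1 + s, x.2.2.2) := by
  have : (dir 2 : Site n L l) = (0, 0, 1, 0) := rfl
  rw [this]
  ext <;> simp

lemma smul_dir3 (s : ℕ) (x : Site n L l) : x + s • dir 3 = (x.1, x.2.1, x.2.2.1, x.2.2.2 + s) := by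
  have : (dir 3 : Site n L l) = (0, 0, 0, 1) := rfl
  rw [this]
  ext <;> simp

/-- the coercivity estimate -/
lemma coer [NeZero N] [NeZero n] [NeZero L] [NeZero l] (k : ℕ) (α : Col N) (j : Fin 4) (μ : ℂ) (hμ1 : μ ^ N = 1)
    (hμ : μ ≠ 1) (h : Site n L l → ℂ)
    (hol : ∀ x : Site n L l, (∏ s ∈ range l, rh k α (x + s • dir j) j) = μ ∧ x + l • dir j = x) :
    ∑ x, ‖h x‖ ^ 2 ≤ (N : ℝ) ^ 2 * (l : ℝ) ^ 2 * ∑ x, ‖nb k α j h x‖ ^ 2 := by
  have hN : (0 : ℝ) < N := by exact_mod_cast Nat.pos_of_neZero N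
  have h1 : ∀ x : Site n L l, ‖h x‖ ≤ N * ∑ s ∈ range l, ‖nb k α j h (x + s • dir j)‖ := by
    intro x
    have h2 := transport k α j h x l
    rw [(hol x).1, (hol x).2] at h2
    have h3 : ‖μ * h x - h x‖ = ‖μ - 1‖ * ‖h x‖ := by
      rw [← norm_mul]; congr 1; ring
    rw [h3] at h2
    have h4 := root_away N μ hμ1 hμ
    calc ‖h x‖ = 1 * ‖h x‖ := (one_mul _).symm
      _ ≤ (N * ‖μ - 1‖) * ‖h x‖ := mul_le_mul_of_nonneg_right h4 (norm_nonneg _)
      _ = N * (‖μ - 1‖ * ‖h x‖) := by ring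
      _ ≤ _ := mul_le_mul_of_nonneg_left h2 hN.le
  have h5 : ∀ x : Site n L l, ‖h x‖ ^ 2 ≤ (N : ℝ) ^ 2 * (l * ∑ s ∈ range l, ‖nb k α j h (x + s • dir j)‖ ^ 2) := by
    intro x
    have h6 := pow_le_pow_left₀ (norm_nonneg _) (h1 x) 2
    have h7 := sq_sum_le_card_mul_sum_sq (s := range l) (f := fun s => ‖nb k α j h (x + s • dir j)‖)
    rw [card_range] at h7
    rw [mul_pow] at h6
    exact h6.trans (mul_le_mul_of_nonneg_left h7 (by positivity))
  refine (sum_le_sum fun x _ => h5 x).trans (le_of_eq ?_)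
  rw [← mul_sum, ← mul_sum, sum_comm]
  have h8 : ∀ s ∈ range l, ∑ x : Site n L l, ‖nb k α j h (x + s • dir j)‖ ^ 2 = ∑ x, ‖nb k α j h x‖ ^ 2 := by
    intro s _
    exact Equiv.sum_comp (Equiv.addRight (s • dir j : Site n L l)) (fun x => ‖nb k α j h x‖ ^ 2)
  rw [sum_congr rfl h8, sum_const, card_range, nsmul_eq_mul]
  ring

/-- a power of `om` is nontrivial -/
lemma om_pow_ne (N k : ℕ) [NeZero N] (hk : Nat.Coprime k N) (a : Fin N) (ha : a ≠ 0) : om N k ^ (a : ℕ) ≠ 1 := by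
  have h1 : IsPrimitiveRoot (om N k) N := Complex.isPrimitiveRoot_exp_of_coprime k N (NeZero.ne N) hk
  intro h2
  have h3 := (h1.pow_eq_one_iff_dvd _).1 h2
  have h4 := Nat.le_of_dvd (Nat.pos_of_ne_zero fun h => ha (Fin.ext (by rw [h]; simp))) h3
  have := a.2
  omega

lemma om_powN (N k : ℕ) [NeZero N] (hk : Nat.Coprime k N) : om N k ^ N = 1 :=
  (Complex.isPrimitiveRoot_exp_of_coprime k N (NeZero.ne N) hk).pow_eq_one

lemma lower [NeZero N] [NeZero n] [NeZero L] [NeZero l] (k : ℕ) (hk : Nat.Coprime k N) (α : Col N) (hα : α ≠ (0, 0))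
    (h : Site n L l → ℂ) :
    ∑ x, ‖h x‖ ^ 2 ≤ (N : ℝ) ^ 2 * (l : ℝ) ^ 2 * ∑ j : Fin 4, ∑ x, ‖nb k α j h x‖ ^ 2 := by
  have hl : ((l : ℕ) : ZMod l) = 0 := ZMod.natCast_self l
  have hmono : ∀ j : Fin 4, ∑ x, ‖nb k α j h x‖ ^ 2 ≤ ∑ j : Fin 4, ∑ x, ‖nb k α j h x‖ ^ 2 := fun j =>
    single_le_sum (f := fun j => ∑ x, ‖nb k α j h x‖ ^ 2) (fun _ _ => sum_nonneg fun _ _ => sq_nonneg _) (mem_univ j)
  by_cases h2 : α.2 = 0
  · have h1 : α.1 ≠ 0 := fun h1 => hα (Prod.ext h1 h2)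
    refine (coer k α 3 (om N k ^ (α.1 : ℕ)) ?_ (om_pow_ne N k hk α.1 h1) h ?_).trans
      (mul_le_mul_of_nonneg_left (hmono 3) (by positivity))
    · rw [← pow_mul, mul_comm, pow_mul, om_powN N k hk, one_pow]
    · intro x
      refine ⟨?_, ?_⟩
      · rw [← one_factor x.2.2.2 (om N k ^ (α.1 : ℕ))]
        refine prod_congr rfl fun s _ => ?_
        unfold rh
        rw [smul_dir3]
        simp
      · rw [smul_dir3, hl, add_zero]
  · have hc : ∀ m : ℕ, conj (om N k) ^ m = conj (om N k ^ m) := fun m => (map_pow _ _ _).symm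
    refine (coer k α 2 (conj (om N k) ^ (α.2 : ℕ)) ?_ ?_ h ?_).trans
      (mul_le_mul_of_nonneg_left (hmono 2) (by positivity))
    · rw [← pow_mul, mul_comm, pow_mul, hc, om_powN N k hk, map_one, one_pow]
    · rw [hc]
      intro h3
      apply om_pow_ne N k hk α.2 h2
      have := congrArg conj h3
      rwa [Complex.conj_conj, map_one] at this
    · intro x
      refine ⟨?_, ?_⟩
      · rw [← one_factor x.2.2.1 (conj (om N k) ^ (α.2 : ℕ))]
        refine prod_congr rfl fun s _ => ?_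
        unfold rh
        rw [smul_dir2]
        simp
      · rw [smul_dir2, hl, add_zero]

lemma bound [NeZero N] [NeZero n] [NeZero L] [NeZero l] (k : ℕ) (hk : Nat.Coprime k N) (α : Col N) (hα : α ≠ (0, 0))
    (h : Site n L l → ℂ) :
    Real.sqrt (∑ x, ‖h x‖ ^ 2) ≤ (N : ℝ) ^ 2 * (l : ℝ) ^ 2 * Real.sqrt (∑ x, ‖La n L l k α h x‖ ^ 2) := by
  have h1 := lower k hk α hα h
  have h2 : ∑ j : Fin 4, ∑ x, ‖nb k α j h x‖ ^ 2 ≤
      Real.sqrt (∑ x, ‖h x‖ ^ 2) * Real.sqrt (∑ x, ‖La n L l k α h x‖ ^ 2) := by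
    have h3 : ∑ j : Fin 4, ∑ x, ‖nb k α j h x‖ ^ 2 = ‖∑ x, conj (h x) * La n L l k α h x‖ := by
      rw [energy, Complex.norm_real, Real.norm_of_nonneg
        (sum_nonneg fun _ _ => sum_nonneg fun _ _ => sq_nonneg _)]
    rw [h3]
    refine (norm_sum_le _ _).trans ?_
    have h4 : ∀ x ∈ (univ : Finset (Site n L l)), ‖conj (h x) * La n L l k α h x‖ = ‖h x‖ * ‖La n L l k α h x‖ := by
      intro x _
      rw [norm_mul, RCLike.norm_conj]
    rw [sum_congr rfl h4]
    exact Real.sum_mul_le_sqrt_mul_sqrt _ _ _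
  set a := Real.sqrt (∑ x, ‖h x‖ ^ 2) with ha
  set b := Real.sqrt (∑ x, ‖La n L l k α h x‖ ^ 2) with hb
  have ha0 : 0 ≤ a := Real.sqrt_nonneg _
  have hb0 : 0 ≤ b := Real.sqrt_nonneg _
  have hA : a ^ 2 = ∑ x, ‖h x‖ ^ 2 := Real.sq_sqrt (sum_nonneg fun _ _ => sq_nonneg _)
  have hc : 0 ≤ (N : ℝ) ^ 2 * (l : ℝ) ^ 2 := by positivity
  have h5 : a ^ 2 ≤ (N : ℝ) ^ 2 * (l : ℝ) ^ 2 * (a * b) := by
    rw [hA]
    exact h1.trans (mul_le_mul_of_nonneg_left h2 hc)
  rcases ha0.eq_or_lt with h6 | h6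
  · rw [← h6]
    positivity
  · by_contra h7
    push Not at h7
    have h8 : (N : ℝ) ^ 2 * (l : ℝ) ^ 2 * b * a < a * a := mul_lt_mul_of_pos_right h7 h6
    nlinarith

/-- **Q5a** -/
theorem t_Q5a : S_Q5a := by
  intro N _
  refine ⟨(N : ℝ) ^ 2, by have : (0 : ℝ) < N := by exact_mod_cast Nat.pos_of_neZero N
                          positivity, ?_⟩
  intro n L l k _ _ _ hk α hα
  have hu : IsUnit (M := Module.End ℂ (Site n L l → ℂ)) (La n L l k α) := by
    rw [LinearMap.isUnit_iff_ker_eq_bot, LinearMap.ker_eq_bot']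
    intro h hh
    have h1 := bound k hk α hα h
    have h2 : ∑ x, ‖La n L l k α h x‖ ^ 2 = 0 := by
      rw [hh]
      simp
    rw [h2, Real.sqrt_zero, mul_zero] at h1
    have h3 : ∑ x, ‖h x‖ ^ 2 = 0 := by
      have h4 := Real.sqrt_eq_zero'.1 (le_antisymm h1 (Real.sqrt_nonneg _))
      exact le_antisymm h4 (sum_nonneg fun _ _ => sq_nonneg _)
    funext x
    have h5 := (sum_eq_zero_iff_of_nonneg (fun _ _ => sq_nonneg _)).1 h3 x (mem_univ x)
    have h6 : ‖h x‖ = 0 := by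
      rcases pow_eq_zero_iff (two_ne_zero) |>.1 h5 with h7
      exact h7
    exact norm_eq_zero.1 h6
  have e1 : ∀ h, La n L l k α (Gr n L l k α h) = h := by
    intro h
    have := Ring.mul_inverse_cancel _ hu
    exact congrArg (fun T : Module.End ℂ (Site n L l → ℂ) => T h) this
  have e2 : ∀ h, Gr n L l k α (La n L l k α h) = h := by
    intro h
    have := Ring.inverse_mul_cancel _ hu
    exact congrArg (fun T : Module.End ℂ (Site n L l → ℂ) => T h) this
  refine ⟨e1, e2, ?_⟩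
  intro h
  have h1 := bound k hk α hα (Gr n L l k α h)
  rwa [e1] at h1

end Run7.h270.QC
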