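import Pool.Agent.Run7.h630.QC.Iface

/-!
# Project QC (helper630), piece Q3b: the trace of the curvature is quadratically small
-/

set_option autoImplicit false

open Matrix
open scoped Matrix.Norms.Frobenius ComplexConjugate

namespace Run7.h270.QC

open Run7.h4.YM Run7.h630.MQ Run7.h630.QC

variable {N : ℕ}

theorem norm_sq_eq (A : Mt N) : ‖A‖ ^ 2 = ∑ i, ∑ j, ‖A i j‖ ^ 2 := by
  rw [frobenius_norm_def, ← Real.sqrt_eq_rpow, Real.sq_sqrt]
  · simp only [Real.rpow_ofNat]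
  · exact Finset.sum_nonneg fun i _ => Finset.sum_nonneg fun j _ => by positivity

theorem norm_entry_le (A : Mt N) (i j : Fin N) : ‖A i j‖ ≤ ‖A‖ := by
  refine abs_le_of_sq_le_sq' ?_ (norm_nonneg _) |>.2
  rw [norm_sq_eq]
  refine le_trans ?_ (Finset.single_le_sum (f := fun i => ∑ j, ‖A i j‖ ^ 2)
    (fun i _ => Finset.sum_nonneg fun j _ => sq_nonneg _) (Finset.mem_univ i))
  exact Finset.single_le_sum (f := fun j => ‖A i j‖ ^ 2) (fun j _ => sq_nonneg _)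
    (Finset.mem_univ j)

lemma prod_one_add {ι : Type*} (s : Finset ι) (x : ι → ℂ) (r : ℝ) (hr : 0 ≤ r)
    (h1 : ∀ i ∈ s, ‖1 + x i‖ ≤ 1) (hx : ∀ i ∈ s, ‖x i‖ ≤ r) :
    ‖∏ i ∈ s, (1 + x i)‖ ≤ 1 ∧ ‖∏ i ∈ s, (1 + x i) - 1‖ ≤ s.card * r ∧
      ‖∏ i ∈ s, (1 + x i) - 1 - ∑ i ∈ s, x i‖ ≤ (s.card : ℝ) ^ 2 * r ^ 2 := by
  classical
  induction s using Finset.induction_on with
  | empty => simp
  | insert a s ha ih =>
    obtain ⟨i1, i2, i3⟩ := ih (fun i hi => h1 i (Finset.mem_insert_of_mem hi))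
      (fun i hi => hx i (Finset.mem_insert_of_mem hi))
    have ha1 := h1 a (Finset.mem_insert_self a s)
    have hax := hx a (Finset.mem_insert_self a s)
    rw [Finset.prod_insert ha, Finset.sum_insert ha, Finset.card_insert_of_notMem ha]
    have hc : (0 : ℝ) ≤ s.card := Nat.cast_nonneg _
    push_cast
    refine ⟨?_, ?_, ?_⟩
    · rw [norm_mul]
      exact mul_le_one₀ ha1 (norm_nonneg _) i1
    · have e1 : (1 + x a) * ∏ i ∈ s, (1 + x i) - 1 = (∏ i ∈ s, (1 + x i) - 1) + x a * ∏ i ∈ s, (1 + x i) := by ring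
      rw [e1]
      refine (norm_add_le _ _).trans ?_
      rw [norm_mul]
      have : ‖x a‖ * ‖∏ i ∈ s, (1 + x i)‖ ≤ r * 1 := mul_le_mul hax i1 (norm_nonneg _) hr
      linarith
    · have e1 : (1 + x a) * ∏ i ∈ s, (1 + x i) - 1 - (x a + ∑ i ∈ s, x i) =
          (∏ i ∈ s, (1 + x i) - 1 - ∑ i ∈ s, x i) + x a * (∏ i ∈ s, (1 + x i) - 1) := by ring
      rw [e1]
      refine (norm_add_le _ _).trans ?_
      rw [norm_mul]
      have : ‖x a‖ * ‖∏ i ∈ s, (1 + x i) - 1‖ ≤ r * (s.card * r) := mul_le_mul hax i2 (norm_nonneg _) hr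
      nlinarith [mul_nonneg hc (sq_nonneg r), sq_nonneg r]

lemma perm_term (u : Mt N) (hu : ∀ i j, ‖u i j‖ ≤ 1) (σ : Equiv.Perm (Fin N)) (hσ : σ ≠ 1) :
    ‖∏ i, u (σ i) i‖ ≤ ‖u - 1‖ ^ 2 := by
  classical
  obtain ⟨i, hi⟩ : ∃ i, σ i ≠ i := by
    by_contra h
    push Not at h
    exact hσ (Equiv.ext h)
  set j := σ i with hj
  have hjj : σ j ≠ j := by
    intro h
    exact hi (σ.injective (h.trans hj)).symm.symm
  have hji : j ∈ Finset.univ.erase i := Finset.mem_erase.2 ⟨hi, Finset.mem_univ _⟩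
  rw [← Finset.mul_prod_erase Finset.univ _ (Finset.mem_univ i), ← Finset.mul_prod_erase _ _ hji,
    norm_mul, norm_mul, norm_prod]
  have h1 : ‖u (σ i) i‖ ≤ ‖u - 1‖ := by
    have : u (σ i) i = (u - 1) (σ i) i := by
      rw [Matrix.sub_apply, Matrix.one_apply_ne hi, sub_zero]
    rw [this]
    exact norm_entry_le _ _ _
  have h2 : ‖u (σ j) j‖ ≤ ‖u - 1‖ := by
    have : u (σ j) j = (u - 1) (σ j) j := by
      rw [Matrix.sub_apply, Matrix.one_apply_ne hjj, sub_zero]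
    rw [this]
    exact norm_entry_le _ _ _
  have h3 : ∏ k ∈ (Finset.univ.erase i).erase j, ‖u (σ k) k‖ ≤ 1 :=
    Finset.prod_le_one (fun _ _ => norm_nonneg _) fun _ _ => hu _ _
  have h4 : ‖u (σ j) j‖ * ∏ k ∈ (Finset.univ.erase i).erase j, ‖u (σ k) k‖ ≤ ‖u - 1‖ * 1 :=
    mul_le_mul h2 h3 (Finset.prod_nonneg fun _ _ => norm_nonneg _) (norm_nonneg _)
  calc ‖u (σ i) i‖ * (‖u (σ j) j‖ * ∏ k ∈ (Finset.univ.erase i).erase j, ‖u (σ k) k‖)
      ≤ ‖u - 1‖ * (‖u - 1‖ * 1) := mul_le_mul h1 h4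
        (mul_nonneg (norm_nonneg _) (Finset.prod_nonneg fun _ _ => norm_nonneg _)) (norm_nonneg _)
    _ = ‖u - 1‖ ^ 2 := by ring

/-- determinant of a matrix with entries in the unit disc -/
lemma det_expand (u : Mt N) (hu : ∀ i j, ‖u i j‖ ≤ 1) :
    ‖det u - 1 - trace (u - 1)‖ ≤ ((N : ℝ) ^ 2 + (Nat.factorial N : ℝ)) * ‖u - 1‖ ^ 2 := by
  classical
  have h0 : ∀ i, u i i = 1 + (u - 1) i i := by
    intro i
    rw [Matrix.sub_apply, Matrix.one_apply_eq]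
    ring
  have h1 := prod_one_add (Finset.univ : Finset (Fin N)) (fun i => (u - 1) i i) ‖u - 1‖ (norm_nonneg _)
    (fun i _ => by rw [← h0 i]; exact hu i i) (fun i _ => norm_entry_le _ _ _)
  rw [det_apply, ← Finset.add_sum_erase _ _ (Finset.mem_univ (1 : Equiv.Perm (Fin N)))]
  have h2 : (Equiv.Perm.sign (1 : Equiv.Perm (Fin N)) • ∏ i, u ((1 : Equiv.Perm (Fin N)) i) i) =
      ∏ i, (1 + (u - 1) i i) := by
    rw [Equiv.Perm.sign_one, one_smul]
    exact Finset.prod_congr rfl fun i _ => h0 i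
  rw [h2]
  have h3 : ‖∑ σ ∈ (Finset.univ : Finset (Equiv.Perm (Fin N))).erase 1,
      Equiv.Perm.sign σ • ∏ i, u (σ i) i‖ ≤ (Nat.factorial N : ℝ) * ‖u - 1‖ ^ 2 := by
    refine (norm_sum_le _ _).trans ?_
    have h4 : ∀ σ ∈ (Finset.univ : Finset (Equiv.Perm (Fin N))).erase 1,
        ‖Equiv.Perm.sign σ • ∏ i, u (σ i) i‖ ≤ ‖u - 1‖ ^ 2 := by
      intro σ hσ
      have h5 : ‖Equiv.Perm.sign σ • ∏ i, u (σ i) i‖ = ‖∏ i, u (σ i) i‖ := by
        rcases Int.units_eq_one_or (Equiv.Perm.sign σ) with h | h <;> rw [h] <;> simp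
      rw [h5]
      exact perm_term u hu σ (Finset.mem_erase.1 hσ).1
    refine (Finset.sum_le_sum h4).trans ?_
    rw [Finset.sum_const, nsmul_eq_mul]
    apply mul_le_mul_of_nonneg_right _ (sq_nonneg _)
    have h6 := Finset.card_le_univ ((Finset.univ : Finset (Equiv.Perm (Fin N))).erase 1)
    rw [Fintype.card_perm, Fintype.card_fin] at h6
    exact_mod_cast h6
  have h7 : trace (u - 1) = ∑ i, (u - 1) i i := rfl
  rw [h7]
  have e1 : ∏ i, (1 + (u - 1) i i) + ∑ σ ∈ (Finset.univ : Finset (Equiv.Perm (Fin N))).erase 1,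
      Equiv.Perm.sign σ • ∏ i, u (σ i) i - 1 - ∑ i, (u - 1) i i =
      (∏ i, (1 + (u - 1) i i) - 1 - ∑ i, (u - 1) i i) +
        ∑ σ ∈ (Finset.univ : Finset (Equiv.Perm (Fin N))).erase 1, Equiv.Perm.sign σ • ∏ i, u (σ i) i := by
    ring
  rw [e1]
  refine (norm_add_le _ _).trans ?_
  have h8 := h1.2.2
  rw [Finset.card_univ, Fintype.card_fin] at h8
  rw [add_mul]
  exact add_le_add h8 h3

/-- **Q3b** -/
theorem t_Q3b : S_Q3b := by
  intro N _
  refine ⟨(N : ℝ) ^ 2 + (Nat.factorial N : ℝ), by positivity, ?_⟩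
  intro z hz g
  have hz1 : ‖z‖ = 1 := by
    have hN : N ≠ 0 := NeZero.ne N
    exact Complex.norm_eq_one_of_pow_eq_one hz hN
  have hu : ∀ i j, ‖(z • g.1) i j‖ ≤ 1 := by
    intro i j
    rw [Matrix.smul_apply, smul_eq_mul, norm_mul, hz1, one_mul]
    exact entry_norm_bound_of_unitary (mem_specialUnitaryGroup_iff.1 g.2).1 i j
  have hdet : det (z • g.1) = 1 := by
    rw [det_smul, Fintype.card_fin, hz, one_mul, (mem_specialUnitaryGroup_iff.1 g.2).2]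
  have h1 := det_expand (z • g.1) hu
  rw [hdet, sub_self, zero_sub, norm_neg] at h1
  exact h1

end Run7.h270.QC
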