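import Pool.Agent.Run7.h630.QC.Iface

/-!
# Project QC (helper630), piece Q9: linear algebra of the divergence
-/

set_option autoImplicit false

open Matrix
open scoped Matrix.Norms.Frobenius ComplexConjugate

namespace Run7.h270.QC

open Run7.h4.YM Run7.h630.MQ Run7.h630.QC

variable {N : ℕ}

lemma pr_apply (A : Mt N) (a b : Fin N) :
    pr A a b = (1 / 2 : ℂ) * (A a b - conj (A b a)) -
      (trace A - conj (trace A)) / (2 * N) * (if a = b then 1 else 0) := by
  unfold pr
  rw [Matrix.sub_apply, Matrix.smul_apply, Matrix.smul_apply, Matrix.sub_apply, conjTranspose_apply,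
    trace_sub, trace_conjTranspose, Matrix.one_apply]
  simp only [smul_eq_mul]
  rfl

lemma tr_single (D : Mt N) (a b : Fin N) : trace (D * Eu a b) = D b a := by
  unfold Eu
  rw [Matrix.trace_mul_single, MulOpposite.op_one, one_smul]

lemma pr_Eu (a b : Fin N) : pr (Eu a b : Mt N) = (1 / 2 : ℂ) • (Eu a b - Eu b a) := by
  ext i j
  rw [pr_apply, Matrix.smul_apply, Matrix.sub_apply, smul_eq_mul]
  have h1 : conj (trace (Eu a b : Mt N)) = trace (Eu a b : Mt N) := by
    unfold Eu trace
    simp only [diag_apply, Matrix.single_apply, map_sum]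
    exact Finset.sum_congr rfl fun k _ => by split_ifs <;> simp
  have h2 : conj ((Eu a b : Mt N) j i) = (Eu b a : Mt N) i j := by
    unfold Eu
    simp only [Matrix.single_apply]
    by_cases h : a = j ∧ b = i
    · rw [if_pos h, if_pos ⟨h.2, h.1⟩, map_one]
    · rw [if_neg h, if_neg (fun h' => h ⟨h'.2, h'.1⟩), map_zero]
  rw [h1, h2, sub_self, zero_div, zero_mul, sub_zero]

lemma tr_Eu (a b : Fin N) : trace (Eu a b : Mt N) = if a = b then 1 else 0 := by
  unfold Eu
  by_cases h : a = b
  · rw [h, if_pos rfl, Matrix.trace_single_eq_same]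
  · rw [if_neg h, Matrix.trace_single_eq_of_ne _ _ _ h]

lemma pr_IEu [NeZero N] (a b : Fin N) : pr (Complex.I • (Eu a b : Mt N)) =
    (1 / 2 : ℂ) • (Complex.I • (Eu a b + Eu b a)) - (Complex.I * (if a = b then 1 else 0) / N) • (1 : Mt N) := by
  have hN : (N : ℂ) ≠ 0 := Nat.cast_ne_zero.2 (NeZero.ne N)
  ext i j
  rw [pr_apply, Matrix.sub_apply, Matrix.smul_apply, Matrix.smul_apply, Matrix.smul_apply, Matrix.smul_apply,
    Matrix.smul_apply, Matrix.add_apply, trace_smul, tr_Eu, Matrix.one_apply]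
  simp only [smul_eq_mul]
  have h2 : conj ((Eu a b : Mt N) j i) = (Eu b a : Mt N) i j := by
    unfold Eu
    simp only [Matrix.single_apply]
    by_cases h : a = j ∧ b = i
    · rw [if_pos h, if_pos ⟨h.2, h.1⟩, map_one]
    · rw [if_neg h, if_neg (fun h' => h ⟨h'.2, h'.1⟩), map_zero]
  rw [map_mul, h2, Complex.conj_I, map_mul, Complex.conj_I]
  have h3 : conj (if a = b then (1 : ℂ) else 0) = if a = b then 1 else 0 := by split_ifs <;> simp
  rw [h3]
  field_simp
  ring

lemma term1 (r δ : ℝ) (g x y t : ℂ) :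
    ((1 / 2 : ℂ) * (((-(r : ℂ)) * g * conj ((y - x) / 2)) * x - conj (((-(r : ℂ)) * g * conj ((y - x) / 2)) * y)) -
      (((-(r : ℂ)) * g * conj ((y - x) / 2)) * t - conj (((-(r : ℂ)) * g * conj ((y - x) / 2)) * t)) * ((r / 2 : ℝ) : ℂ) *
        (δ : ℂ)).re = r / 4 * g.re * Complex.normSq (x - y) := by
  have e : ((1 : ℂ) / 2) = ((1 / 2 : ℝ) : ℂ) := by push_cast; ring
  have e2 : (y - x) / 2 = (y - x) * ((1 / 2 : ℝ) : ℂ) := by push_cast; ring
  rw [e, e2]
  simp only [Complex.normSq_apply, Complex.sub_re, Complex.sub_im, Complex.mul_re, Complex.mul_im, Complex.neg_re,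
    Complex.neg_im, Complex.ofReal_re, Complex.ofReal_im, Complex.conj_re, Complex.conj_im]
  ring

lemma term2 (r δ : ℝ) (g x y t : ℂ) :
    ((1 / 2 : ℂ) * (((-(r : ℂ)) * g * conj (Complex.I * ((x + y) / 2 - (δ : ℂ) * t * r))) * x -
        conj (((-(r : ℂ)) * g * conj (Complex.I * ((x + y) / 2 - (δ : ℂ) * t * r))) * y)) -
      (((-(r : ℂ)) * g * conj (Complex.I * ((x + y) / 2 - (δ : ℂ) * t * r))) * t -
        conj (((-(r : ℂ)) * g * conj (Complex.I * ((x + y) / 2 - (δ : ℂ) * t * r))) * t)) * ((r / 2 : ℝ) : ℂ) *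
        (δ : ℂ)).im = r * g.re * Complex.normSq ((x + y) / 2 - (δ : ℂ) * t * r) := by
  have e : ((1 : ℂ) / 2) = ((1 / 2 : ℝ) : ℂ) := by push_cast; ring
  have e2 : (x + y) / 2 = (x + y) * ((1 / 2 : ℝ) : ℂ) := by push_cast; ring
  rw [e, e2]
  simp only [Complex.normSq_apply, Complex.sub_re, Complex.sub_im, Complex.mul_re, Complex.mul_im, Complex.neg_re,
    Complex.neg_im, Complex.ofReal_re, Complex.ofReal_im, Complex.conj_re, Complex.conj_im, Complex.I_re, Complex.I_im,
    Complex.add_re, Complex.add_im]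
  ring

/-- **Q9** -/
theorem t_Q9 : S_Q9 := by
  intro N _ D g hD
  have hNr : (N : ℝ) ≠ 0 := Nat.cast_ne_zero.2 (NeZero.ne N)
  have hN : (N : ℂ) ≠ 0 := Nat.cast_ne_zero.2 (NeZero.ne N)
  set r : ℝ := 1 / N with hr
  have hrc : (1 / N : ℂ) = (r : ℂ) := by rw [hr]; push_cast; ring
  set t : ℂ := trace D with ht
  -- the two traces
  have k1 : ∀ a b : Fin N, trace (D * pr (Eu a b)) = (D b a - D a b) / 2 := by
    intro a b
    rw [pr_Eu, mul_smul_comm, trace_smul, mul_sub, trace_sub, tr_single, tr_single, smul_eq_mul]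
    ring
  have k2 : ∀ a b : Fin N, trace (D * pr (Complex.I • Eu a b)) =
      Complex.I * ((D a b + D b a) / 2 - (((if a = b then (1 : ℝ) else 0) : ℝ) : ℂ) * t * r) := by
    intro a b
    rw [pr_IEu, mul_sub, mul_smul_comm, mul_smul_comm, mul_smul_comm, mul_add, mul_one, trace_sub, trace_smul,
      trace_smul, trace_smul, trace_add, tr_single, tr_single, ← hrc, ← ht]
    simp only [smul_eq_mul]
    split_ifs
    · push_cast; field_simp; ring
    · push_cast; ring
  have k3 : ∀ (c : ℂ) (a b : Fin N), pr (c • D) a b = (1 / 2 : ℂ) * (c * D a b - conj (c * D b a)) -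
      (c * t - conj (c * t)) * ((r / 2 : ℝ) : ℂ) * (((if a = b then (1 : ℝ) else 0) : ℝ) : ℂ) := by
    intro c a b
    rw [pr_apply, Matrix.smul_apply, Matrix.smul_apply, trace_smul, smul_eq_mul, smul_eq_mul, smul_eq_mul, ← ht]
    have e1 : ((r / 2 : ℝ) : ℂ) = 1 / (2 * N) := by rw [hr]; push_cast; field_simp
    rw [e1]
    split_ifs
    · push_cast; ring
    · push_cast; ring
  have k4 : ∀ a b : Fin N, ((pr ((-(1 / N) * g * conj (trace (D * pr (Eu a b))) : ℂ) • D) a b).re +
      (pr ((-(1 / N) * g * conj (trace (D * pr (Complex.I • Eu a b))) : ℂ) • D) a b).im) =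
      r / 4 * g.re * Complex.normSq (D a b - D b a) +
        r * g.re * Complex.normSq ((D a b + D b a) / 2 - (((if a = b then (1 : ℝ) else 0) : ℝ) : ℂ) * t * r) := by
    intro a b
    rw [k3, k3, k1, k2, hrc, term1, term2]
  -- expansion of the squares
  have k5 : ∀ a b : Fin N, r / 4 * g.re * Complex.normSq (D a b - D b a) +
        r * g.re * Complex.normSq ((D a b + D b a) / 2 - (((if a = b then (1 : ℝ) else 0) : ℝ) : ℂ) * t * r) =
      g.re * (r / 2 * (Complex.normSq (D a b) + Complex.normSq (D b a)) +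
        (if a = b then r ^ 3 * Complex.normSq t - 2 * r ^ 2 * (D a b * conj t).re else 0)) := by
    intro a b
    have e2 : (D a b + D b a) / 2 = (D a b + D b a) * ((1 / 2 : ℝ) : ℂ) := by push_cast; ring
    rw [e2]
    by_cases h : a = b
    · rw [h]
      simp only [if_true, Complex.normSq_apply, Complex.sub_re, Complex.sub_im, Complex.mul_re, Complex.mul_im,
        Complex.ofReal_re, Complex.ofReal_im, Complex.conj_re, Complex.conj_im, Complex.add_re, Complex.add_im]
      ring
    · simp only [h, if_false, Complex.normSq_apply, Complex.sub_re, Complex.sub_im, Complex.mul_re, Complex.mul_im,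
        Complex.ofReal_re, Complex.ofReal_im, Complex.conj_re, Complex.conj_im, Complex.add_re, Complex.add_im]
      ring
  rw [Finset.sum_congr rfl fun a _ => Finset.sum_congr rfl fun b _ => (k4 a b).trans (k5 a b)]
  -- the sums
  have s1 : ∑ a : Fin N, ∑ b : Fin N, Complex.normSq (D a b) = N := by
    have h1 : ∀ a : Fin N, ∑ b : Fin N, Complex.normSq (D a b) = 1 := by
      intro a
      have h2 := congrFun (congrFun hD a) a
      rw [Matrix.mul_apply, Matrix.one_apply_eq] at h2
      have h3 : ((∑ b : Fin N, Complex.normSq (D a b) : ℝ) : ℂ) = 1 := by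
        rw [← h2]
        push_cast
        refine Finset.sum_congr rfl fun b _ => ?_
        rw [conjTranspose_apply]
        exact (Complex.mul_conj (D a b)).symm
      exact_mod_cast h3
    rw [Finset.sum_congr rfl fun a _ => h1 a, Finset.sum_const, Finset.card_univ, Fintype.card_fin, nsmul_eq_mul,
      mul_one]
  have s2 : ∑ a : Fin N, ∑ b : Fin N, Complex.normSq (D b a) = N := by
    rw [Finset.sum_comm]
    exact s1
  have s3 : ∑ a : Fin N, ∑ b : Fin N, (if a = b then r ^ 3 * Complex.normSq t - 2 * r ^ 2 * (D a b * conj t).re else 0) =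
      N * (r ^ 3 * Complex.normSq t) - 2 * r ^ 2 * Complex.normSq t := by
    have h1 : ∀ a : Fin N, ∑ b : Fin N,
        (if a = b then r ^ 3 * Complex.normSq t - 2 * r ^ 2 * (D a b * conj t).re else 0) =
        r ^ 3 * Complex.normSq t - 2 * r ^ 2 * (D a a * conj t).re := by
      intro a
      rw [Finset.sum_ite_eq Finset.univ a, if_pos (Finset.mem_univ a)]
    rw [Finset.sum_congr rfl fun a _ => h1 a, Finset.sum_sub_distrib, Finset.sum_const, Finset.card_univ,
      Fintype.card_fin, nsmul_eq_mul, ← Finset.mul_sum]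
    congr 2
    rw [← Complex.re_sum, ← Finset.sum_mul]
    have h2 : ∑ a : Fin N, D a a = t := rfl
    rw [h2, Complex.mul_conj, Complex.ofReal_re]
  simp_rw [← Finset.mul_sum, Finset.sum_add_distrib, ← Finset.mul_sum, Finset.sum_add_distrib]
  rw [s1, s2, s3, Complex.sq_norm, hr]
  field_simp
  ring

end Run7.h270.QC
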